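import Mathlib

/-!
# Definitions: amenability, pmp actions, weak containment, antichains, width
-/

set_option autoImplicit false

namespace Pool.Agent.N255.BG

open MeasureTheory Set

/-- a group is amenable if it has a finitely additive probability measure defined on all subsets
which is invariant under left translations -/
def IsAmenable (Γ : Type) [Group Γ] : Prop :=
  ∃ m : Set Γ → ℝ, (∀ A, 0 ≤ m A) ∧ m univ = 1 ∧
    (∀ A B, Disjoint A B → m (A ∪ B) = m A + m B) ∧
    ∀ (g : Γ) (A : Set Γ), m ((fun h => g * h) '' A) = m A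

/-- a probability measure preserving action of `Γ` on `(X, μ)` -/
structure PmpAction (Γ : Type) [Group Γ] {X : Type} [MeasurableSpace X] (μ : Measure X) where
  /-- the action -/
  act : Γ → X → X
  one_act : ∀ x, act 1 x = x
  mul_act : ∀ g h x, act (g * h) x = act g (act h x)
  measurePreserving : ∀ g, MeasurePreserving (act g) μ μ

variable {Γ : Type} [Group Γ] {X : Type} [MeasurableSpace X] {μ : Measure X}

/-- the action is (essentially) free: for almost every `x`, `γ · x ≠ x` for all `γ ≠ 1` -/
def PmpAction.IsFree (a : PmpAction Γ μ) : Prop :=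
  ∀ᵐ x ∂μ, ∀ γ : Γ, γ ≠ 1 → a.act γ x ≠ x

/-- weak containment `b ≼ a` of pmp actions, in the sense of Kechris -/
def WeaklyContained (b a : PmpAction Γ μ) : Prop :=
  ∀ (F : Finset Γ) (ε : ℝ), 0 < ε → ∀ (n : ℕ) (A : Fin n → Set X), (∀ i, MeasurableSet (A i)) →
    ∃ B : Fin n → Set X, (∀ i, MeasurableSet (B i)) ∧
      ∀ γ ∈ F, ∀ i j : Fin n,
        |μ.real ((b.act γ '' A i) ∩ A j) - μ.real ((a.act γ '' B i) ∩ B j)| < ε

/-- the class of the free pmp actions of `Γ` on `(X, μ)` -/
abbrev FreeAction (Γ : Type) [Group Γ] {X : Type} [MeasurableSpace X] (μ : Measure X) : Type :=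
  {a : PmpAction Γ μ // a.IsFree}

/-- a set of free actions is an antichain if any two distinct members of it are
incomparable -/
def Antichain (𝒜 : Set (FreeAction Γ μ)) : Prop :=
  ∀ a ∈ 𝒜, ∀ b ∈ 𝒜, a ≠ b → ¬ WeaklyContained a.1 b.1 ∧ ¬ WeaklyContained b.1 a.1

/-- the width of the preordered class of the free actions: the supremum of the cardinalities of the
antichains -/
noncomputable def width (Γ : Type) [Group Γ] {X : Type} [MeasurableSpace X] (μ : Measure X) :
    Cardinal :=
  ⨆ 𝒜 : {𝒜 : Set (FreeAction Γ μ) // Antichain 𝒜}, Cardinal.mk 𝒜.1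

end Pool.Agent.N255.BG
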