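import Mathlib
import Pool.Agent.N255.BG.Defs

/-!
# Amenable groups: invariant means from almost invariant means
-/

set_option autoImplicit false

namespace Pool.Agent.N255.BG

open Set Filter Topology

variable {Γ : Type} [Group Γ]

theorem amenable_of_approx
    (h : ∀ (F : Finset Γ) (ε : ℝ), 0 < ε → ∃ m : Set Γ → ℝ, (∀ A, 0 ≤ m A) ∧ m univ = 1 ∧
      (∀ A B, Disjoint A B → m (A ∪ B) = m A + m B) ∧
      ∀ g ∈ F, ∀ A : Set Γ, |m ((fun h => g * h) '' A) - m A| ≤ ε) : IsAmenable Γ := by
  classical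
  choose! m h0 h1 h2 h3 using h
  let φ : Finset Γ × ℕ → (Set Γ → ℝ) := fun i => m i.1 (1 / ((i.2 : ℝ) + 1))
  have hpos : ∀ i : Finset Γ × ℕ, (0 : ℝ) < 1 / ((i.2 : ℝ) + 1) := fun i => by positivity
  let K : Set (Set Γ → ℝ) := Set.pi univ fun _ => Icc 0 1
  have hK : IsCompact K := isCompact_univ_pi fun _ => isCompact_Icc
  have hφ : ∀ i, φ i ∈ K := by
    intro i A _
    have ha := h0 i.1 _ (hpos i) A
    have hb := h0 i.1 _ (hpos i) Aᶜ
    have hc := h2 i.1 _ (hpos i) A Aᶜ disjoint_compl_right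
    rw [union_compl_self, h1 i.1 _ (hpos i)] at hc
    exact ⟨ha, by change m i.1 _ A ≤ 1; linarith⟩
  let U : Ultrafilter (Finset Γ × ℕ) := Ultrafilter.of atTop
  have hU : (U : Filter (Finset Γ × ℕ)) ≤ atTop := Ultrafilter.of_le atTop
  obtain ⟨x, -, hx⟩ := hK.ultrafilter_le_nhds (U.map φ) (by
    rw [Ultrafilter.coe_map]
    exact tendsto_principal.2 (Eventually.of_forall hφ))
  have hlim : ∀ A : Set Γ, Tendsto (fun i => φ i A) U (𝓝 (x A)) := by
    intro A
    have : Tendsto φ U (𝓝 x) := hx
    exact (tendsto_pi_nhds.1 this) A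
  have hneb : (U : Filter (Finset Γ × ℕ)).NeBot := U.neBot
  refine ⟨x, fun A => ?_, ?_, fun A B hAB => ?_, fun g A => ?_⟩
  · exact ge_of_tendsto' (hlim A) fun i => h0 i.1 _ (hpos i) A
  · have : Tendsto (fun i => φ i univ) U (𝓝 1) := by
      have e : (fun i => φ i univ) = fun _ => (1 : ℝ) := by
        funext i
        exact h1 i.1 _ (hpos i)
      rw [e]
      exact tendsto_const_nhds
    exact tendsto_nhds_unique (hlim univ) this
  · have e : (fun i => φ i (A ∪ B)) = fun i => φ i A + φ i B := by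
      funext i
      exact h2 i.1 _ (hpos i) A B hAB
    have h5 := (hlim A).add (hlim B)
    rw [← e] at h5
    exact tendsto_nhds_unique (hlim (A ∪ B)) h5
  · have h5 : Tendsto (fun i => φ i ((fun h => g * h) '' A) - φ i A) U (𝓝 0) := by
      have h6 : Tendsto (fun i : Finset Γ × ℕ => 1 / ((i.2 : ℝ) + 1)) U (𝓝 0) := by
        have h7 : Tendsto (fun i : Finset Γ × ℕ => i.2) atTop atTop := by
          rw [← prod_atTop_atTop_eq]
          exact tendsto_snd
        exact (tendsto_one_div_add_atTop_nhds_zero_nat.comp h7).mono_left hU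
      refine squeeze_zero_norm' ?_ h6
      have h8 : ∀ᶠ i : Finset Γ × ℕ in (U : Filter (Finset Γ × ℕ)), {g} ≤ i.1 := by
        have h9 : ∀ᶠ i : Finset Γ × ℕ in atTop, ({g} : Finset Γ) ≤ i.1 := by
          rw [← prod_atTop_atTop_eq]
          exact tendsto_fst.eventually (eventually_ge_atTop ({g} : Finset Γ))
        exact hU h9
      filter_upwards [h8] with i hi
      rw [Real.norm_eq_abs]
      exact h3 i.1 _ (hpos i) g (hi (Finset.mem_singleton_self g)) A
    have h6 := (hlim ((fun h => g * h) '' A)).sub (hlim A)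
    have h7 := tendsto_nhds_unique h5 h6
    linarith

/-- finite groups are amenable -/
theorem amenable_of_finite [Finite Γ] : IsAmenable Γ := by
  classical
  have := Fintype.ofFinite Γ
  have hc : (0 : ℝ) < Nat.card Γ := by
    have := Nat.card_pos (α := Γ)
    exact_mod_cast this
  refine ⟨fun A => (A.ncard : ℝ) / Nat.card Γ, fun A => by positivity, ?_, ?_, ?_⟩
  · simp only [Set.ncard_univ]
    exact div_self hc.ne'
  · intro A B h
    simp only
    rw [Set.ncard_union_eq h (toFinite _) (toFinite _)]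
    push_cast
    ring
  · intro g A
    simp only
    rw [Set.ncard_image_of_injective _ (mul_right_injective g)]

end Pool.Agent.N255.BG
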