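import Mathlib
import Pool.Agent.R203.Bern

/-!
# Walsh functions on the space of 0-1 labellings of a countable set
-/

set_option autoImplicit false

namespace Pool.Agent.N255.BG

open MeasureTheory Set Filter Topology
open scoped ENNReal symmDiff

/-- the fair coin -/
noncomputable def coin : Measure Bool := (PMF.uniformOfFintype Bool).toMeasure

instance : IsProbabilityMeasure coin := by unfold coin; infer_instance

variable {Γ : Type}

/-- the fair coin labelling of `Γ` -/
noncomputable abbrev bern (Γ : Type) : Measure (Γ → Bool) := Pool.Agent.R203.Bern.iid Γ coin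

/-- sign -/
def sg (b : Bool) : ℝ := if b then 1 else -1

theorem sg_sq (b : Bool) : sg b * sg b = 1 := by cases b <;> simp [sg]

theorem sg_not (b : Bool) : sg (!b) = - sg b := by cases b <;> simp [sg]

theorem sg_abs (b : Bool) : |sg b| = 1 := by cases b <;> simp [sg]

/-- Walsh function -/
def wal (S : Finset Γ) (x : Γ → Bool) : ℝ := ∏ i ∈ S, sg (x i)

theorem wal_abs (S : Finset Γ) (x : Γ → Bool) : |wal S x| = 1 := by
  unfold wal
  rw [Finset.abs_prod]
  exact Finset.prod_eq_one fun i _ => sg_abs _

theorem measurable_wal (S : Finset Γ) : Measurable (wal (Γ := Γ) S) := by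
  unfold wal
  refine Finset.measurable_prod _ fun i _ => ?_
  exact (measurable_from_top (f := sg)).comp (measurable_pi_apply i)

theorem integrable_wal (S : Finset Γ) : Integrable (wal (Γ := Γ) S) (bern Γ) := by
  refine Integrable.of_bound (measurable_wal S).aestronglyMeasurable 1 ?_
  exact Eventually.of_forall fun x => by rw [Real.norm_eq_abs, wal_abs]

theorem coin_map_not : coin.map (fun b => !b) = coin := by
  have h : ∀ b : Bool, coin {b} = 2⁻¹ := by
    intro b
    unfold coin
    rw [PMF.toMeasure_apply_singleton _ _ (measurableSet_singleton b)]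
    simp
  refine Measure.ext_of_singleton fun b => ?_
  rw [Measure.map_apply measurable_from_top (measurableSet_singleton b)]
  have : (fun b => !b) ⁻¹' {b} = {!b} := by
    ext c
    cases b <;> cases c <;> simp
  rw [this, h, h]

section
variable [DecidableEq Γ]

/-- flip the coordinate `i` -/
def flip (i : Γ) (x : Γ → Bool) : Γ → Bool := fun j => if j = i then !(x j) else x j

theorem mp_flip (i : Γ) : MeasurePreserving (flip i) (bern Γ) (bern Γ) := by
  have hm : ∀ j : Γ, Measurable (fun b : Bool => if j = i then !b else b) := fun j =>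
    measurable_from_top
  have h := Measure.infinitePi_map_pi (μ := fun _ : Γ => coin)
    (f := fun (j : Γ) (b : Bool) => if j = i then !b else b) (fun j => hm j)
  refine ⟨?_, ?_⟩
  · exact measurable_pi_lambda _ fun j => (hm j).comp (measurable_pi_apply j)
  · unfold bern Pool.Agent.R203.Bern.iid
    have e : flip i = (fun (x : Γ → Bool) (j : Γ) => if j = i then !(x j) else x j) := rfl
    rw [e]
    refine (h).trans ?_
    congr 1
    funext j
    by_cases hj : j = i
    · simp only [hj, if_true]
      exact coin_map_not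
    · simp only [hj, if_false]
      exact Measure.map_id

theorem wal_flip {S : Finset Γ} {i : Γ} (hi : i ∈ S) (x : Γ → Bool) :
    wal S (flip i x) = - wal S x := by
  unfold wal
  rw [← Finset.mul_prod_erase _ _ hi, ← Finset.mul_prod_erase S (fun j => sg (x j)) hi]
  have h1 : sg (flip i x i) = - sg (x i) := by
    unfold flip
    rw [if_pos rfl, sg_not]
  have h2 : ∏ j ∈ S.erase i, sg (flip i x j) = ∏ j ∈ S.erase i, sg (x j) := by
    refine Finset.prod_congr rfl fun j hj => ?_
    unfold flip
    rw [if_neg (Finset.ne_of_mem_erase hj)]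
  rw [h1, h2]
  ring

theorem integral_wal (S : Finset Γ) : ∫ x, wal S x ∂(bern Γ) = if S = ∅ then 1 else 0 := by
  split_ifs with h
  · subst h
    simp [wal]
  · obtain ⟨i, hi⟩ := Finset.nonempty_iff_ne_empty.2 h
    have h1 : ∫ x, wal S (flip i x) ∂(bern Γ) = ∫ x, wal S x ∂(bern Γ) := by
      have h3 := integral_map (μ := bern Γ) (φ := flip i) (mp_flip i).measurable.aemeasurable
        (f := wal S) (measurable_wal S).aestronglyMeasurable
      rw [(mp_flip i).map_eq] at h3
      exact h3.symm
    simp_rw [wal_flip hi] at h1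
    rw [integral_neg] at h1
    linarith

theorem wal_mul (S T : Finset Γ) (x : Γ → Bool) : wal S x * wal T x = wal (S ∆ T) x := by
  unfold wal
  have hS : S = (S \ T) ∪ (S ∩ T) := by
    ext a; simp only [Finset.mem_union, Finset.mem_sdiff, Finset.mem_inter]; tauto
  have hT : T = (T \ S) ∪ (S ∩ T) := by
    ext a; simp only [Finset.mem_union, Finset.mem_sdiff, Finset.mem_inter]; tauto
  have d1 : Disjoint (S \ T) (S ∩ T) := by
    rw [Finset.disjoint_left]; intro a; simp only [Finset.mem_sdiff, Finset.mem_inter]; tauto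
  have d2 : Disjoint (T \ S) (S ∩ T) := by
    rw [Finset.disjoint_left]; intro a; simp only [Finset.mem_sdiff, Finset.mem_inter]; tauto
  have d3 : Disjoint (S \ T) (T \ S) := by
    rw [Finset.disjoint_left]; intro a; simp only [Finset.mem_sdiff]; tauto
  have e1 : ∏ i ∈ S, sg (x i) = (∏ i ∈ S \ T, sg (x i)) * ∏ i ∈ S ∩ T, sg (x i) := by
    conv_lhs => rw [hS]
    exact Finset.prod_union d1
  have e2 : ∏ i ∈ T, sg (x i) = (∏ i ∈ T \ S, sg (x i)) * ∏ i ∈ S ∩ T, sg (x i) := by
    conv_lhs => rw [hT]
    exact Finset.prod_union d2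
  have e3 : ∏ i ∈ S ∆ T, sg (x i) = (∏ i ∈ S \ T, sg (x i)) * ∏ i ∈ T \ S, sg (x i) := by
    have : S ∆ T = (S \ T) ∪ (T \ S) := rfl
    rw [this]
    exact Finset.prod_union d3
  have e4 : (∏ i ∈ S ∩ T, sg (x i)) * (∏ i ∈ S ∩ T, sg (x i)) = 1 := by
    rw [← Finset.prod_mul_distrib]
    exact Finset.prod_eq_one fun i _ => sg_sq _
  rw [e1, e2, e3]
  calc _ = (∏ i ∈ S \ T, sg (x i)) * (∏ i ∈ T \ S, sg (x i)) *
        ((∏ i ∈ S ∩ T, sg (x i)) * (∏ i ∈ S ∩ T, sg (x i))) := by ring
    _ = _ := by rw [e4, mul_one]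

theorem integral_wal_mul (S T : Finset Γ) :
    ∫ x, wal S x * wal T x ∂(bern Γ) = if S = T then 1 else 0 := by
  simp_rw [wal_mul]
  rw [integral_wal]
  have : S ∆ T = ∅ ↔ S = T := by
    constructor
    · intro h
      exact symmDiff_eq_bot.1 h
    · intro h
      exact symmDiff_eq_bot.2 h
  simp only [this]

/-- finite Walsh sums -/
noncomputable def W (c : Finset Γ → ℝ) (P : Finset (Finset Γ)) (x : Γ → Bool) : ℝ :=
  ∑ S ∈ P, c S * wal S x

omit [DecidableEq Γ] in
theorem measurable_W (c : Finset Γ → ℝ) (P : Finset (Finset Γ)) : Measurable (W c P) := by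
  unfold W
  exact Finset.measurable_sum _ fun S _ => (measurable_wal S).const_mul _

theorem integral_W_sq (c : Finset Γ → ℝ) (P : Finset (Finset Γ)) :
    ∫ x, W c P x ^ 2 ∂(bern Γ) = ∑ S ∈ P, c S ^ 2 := by
  unfold W
  have h1 : ∀ x : Γ → Bool, (∑ S ∈ P, c S * wal S x) ^ 2 =
      ∑ S ∈ P, ∑ T ∈ P, c S * c T * (wal S x * wal T x) := by
    intro x
    rw [sq, Finset.sum_mul_sum]
    refine Finset.sum_congr rfl fun S _ => Finset.sum_congr rfl fun T _ => ?_
    ring
  simp_rw [h1]
  have hi : ∀ S T : Finset Γ, Integrable (fun x => c S * c T * (wal S x * wal T x)) (bern Γ) := by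
    intro S T
    simp_rw [wal_mul]
    exact (integrable_wal _).const_mul _
  rw [integral_finsetSum _ fun S _ => integrable_finsetSum _ fun T _ => hi S T]
  refine Finset.sum_congr rfl fun S hS => ?_
  rw [integral_finsetSum _ fun T _ => hi S T]
  simp_rw [integral_const_mul, integral_wal_mul]
  rw [Finset.sum_eq_single S]
  · rw [if_pos rfl]; ring
  · intro T _ hT
    rw [if_neg (Ne.symm hT)]; ring
  · intro h
    exact absurd hS h

theorem integral_W (c : Finset Γ → ℝ) (P : Finset (Finset Γ)) (hP : ∅ ∈ P) :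
    ∫ x, W c P x ∂(bern Γ) = c ∅ := by
  unfold W
  rw [integral_finsetSum _ fun S _ => (integrable_wal S).const_mul _]
  simp_rw [integral_const_mul, integral_wal]
  rw [Finset.sum_eq_single ∅]
  · rw [if_pos rfl]; ring
  · intro T _ hT
    rw [if_neg hT]; ring
  · intro h
    exact absurd hP h

omit [DecidableEq Γ] in
/-- a function of finitely many coordinates is a Walsh sum -/
theorem exists_W (D : Finset Γ) (f : (D → Bool) → ℝ) :
    ∃ c : Finset Γ → ℝ, ∀ x : Γ → Bool, f (D.restrict x) = W c D.powerset x := by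
  classical
  -- indicator of a point
  have key : ∀ (y : D → Bool) (x : Γ → Bool),
      (if D.restrict x = y then (1 : ℝ) else 0) =
        ∑ S ∈ D.powerset, ((2 : ℝ)⁻¹ ^ D.card * ∏ i ∈ S, (if h : i ∈ D then sg (y ⟨i, h⟩) else 1)) *
          wal S x := by
    intro y x
    have h1 : (if D.restrict x = y then (1 : ℝ) else 0) =
        ∏ i ∈ D, ((1 + (if h : i ∈ D then sg (y ⟨i, h⟩) else 1) * sg (x i)) / 2) := by
      split_ifs with hx
      · subst hx
        symm
        refine Finset.prod_eq_one fun i hi => ?_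
        rw [dif_pos hi]
        simp only [Finset.restrict]
        rw [sg_sq]
        norm_num
      · have : ∃ i : D, x i ≠ y i := by
          by_contra hcon
          push Not at hcon
          exact hx (funext fun i => hcon i)
        obtain ⟨i, hi⟩ := this
        symm
        refine Finset.prod_eq_zero i.2 ?_
        rw [dif_pos i.2]
        have : x i = !(y i) := by
          revert hi
          cases x i <;> cases y i <;> simp
        rw [this, sg_not, mul_neg, sg_sq]
        norm_num
    rw [h1]
    have h2 : ∏ i ∈ D, ((1 + (if h : i ∈ D then sg (y ⟨i, h⟩) else 1) * sg (x i)) / 2) =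
        (2 : ℝ)⁻¹ ^ D.card * ∏ i ∈ D, (1 + (if h : i ∈ D then sg (y ⟨i, h⟩) else 1) * sg (x i)) := by
      rw [← Finset.prod_const, ← Finset.prod_mul_distrib]
      refine Finset.prod_congr rfl fun i _ => ?_
      ring
    rw [h2, Finset.prod_one_add, Finset.mul_sum]
    refine Finset.sum_congr rfl fun S _ => ?_
    rw [Finset.prod_mul_distrib]
    unfold wal
    ring
  refine ⟨fun S => ∑ y : D → Bool, f y * ((2 : ℝ)⁻¹ ^ D.card *
    ∏ i ∈ S, (if h : i ∈ D then sg (y ⟨i, h⟩) else 1)), fun x => ?_⟩
  have h3 : f (D.restrict x) = ∑ y : D → Bool, f y * (if D.restrict x = y then (1 : ℝ) else 0) := by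
    simp
  rw [h3]
  simp_rw [key]
  unfold W
  simp_rw [Finset.mul_sum, Finset.sum_mul]
  rw [Finset.sum_comm]
  refine Finset.sum_congr rfl fun S _ => Finset.sum_congr rfl fun y _ => ?_
  ring

end

end Pool.Agent.N255.BG
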