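import Mathlib
import Pool.Agent.N255.BG.Walsh
import Pool.Agent.N255.BG.Amen

/-!
# The spectral gap of the Bernoulli shift of a nonamenable group
-/

set_option autoImplicit false

namespace Pool.Agent.N255.BG

open MeasureTheory Set Filter Topology
open scoped ENNReal symmDiff

variable {Γ : Type} [Group Γ]

/-- the Bernoulli shift -/
def sh (g : Γ) (x : Γ → Bool) : Γ → Bool := fun h => x (g⁻¹ * h)

theorem sh_one (x : Γ → Bool) : sh 1 x = x := by
  funext h
  simp [sh]

theorem sh_mul (g h : Γ) (x : Γ → Bool) : sh (g * h) x = sh g (sh h x) := by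
  funext k
  simp [sh, mul_assoc]

theorem mp_sh (g : Γ) : MeasurePreserving (sh g) (bern Γ) (bern Γ) :=
  ⟨Pool.Agent.R203.Bern.measurable_comp (fun h : Γ => g⁻¹ * h),
    Pool.Agent.R203.Bern.map_comp coin (fun h : Γ => g⁻¹ * h) (mul_right_injective g⁻¹)⟩

/-- translate of a finite set -/
def tr (g : Γ) (S : Finset Γ) : Finset Γ := S.map (Equiv.mulLeft g).toEmbedding

theorem mem_tr {g a : Γ} {S : Finset Γ} : a ∈ tr g S ↔ g⁻¹ * a ∈ S := by
  unfold tr
  rw [Finset.mem_map]
  constructor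
  · rintro ⟨b, hb, rfl⟩
    simpa using hb
  · intro h
    exact ⟨_, h, by simp⟩

theorem tr_tr (g h : Γ) (S : Finset Γ) : tr g (tr h S) = tr (g * h) S := by
  ext a
  simp [mem_tr, mul_assoc]

theorem tr_one (S : Finset Γ) : tr (1 : Γ) S = S := by
  ext a
  simp [mem_tr]

theorem tr_inv_tr (g : Γ) (S : Finset Γ) : tr g⁻¹ (tr g S) = S := by
  rw [tr_tr, inv_mul_cancel, tr_one]

theorem tr_tr_inv (g : Γ) (S : Finset Γ) : tr g (tr g⁻¹ S) = S := by
  rw [tr_tr, mul_inv_cancel, tr_one]

theorem tr_empty (g : Γ) : tr g ∅ = ∅ := by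
  unfold tr
  rw [Finset.map_empty]

theorem tr_eq_empty {g : Γ} {S : Finset Γ} : tr g S = ∅ ↔ S = ∅ := by
  unfold tr
  rw [Finset.map_eq_empty]

theorem card_tr (g : Γ) (S : Finset Γ) : (tr g S).card = S.card := by
  unfold tr
  rw [Finset.card_map]

theorem tr_injective (g : Γ) : Function.Injective (tr g) := fun S T h => by
  rw [← tr_inv_tr g S, h, tr_inv_tr]

theorem wal_sh (S : Finset Γ) (g : Γ) (x : Γ → Bool) : wal S (sh g x) = wal (tr g⁻¹ S) x := by
  unfold wal tr sh
  rw [Finset.prod_map]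
  rfl

theorem W_sh (c : Finset Γ → ℝ) (P Q : Finset (Finset Γ)) (g : Γ) (hc : ∀ S, S ∉ P → c S = 0)
    (hQ : ∀ S ∈ P, tr g⁻¹ S ∈ Q) (x : Γ → Bool) :
    W c P (sh g x) = W (fun S => c (tr g S)) Q x := by
  classical
  unfold W
  simp_rw [wal_sh]
  have h1 : ∑ S ∈ P, c S * wal (tr g⁻¹ S) x =
      ∑ T ∈ P.image (tr g⁻¹), c (tr g T) * wal T x := by
    rw [Finset.sum_image fun a _ b _ h => tr_injective _ h]
    refine Finset.sum_congr rfl fun S _ => ?_
    rw [tr_tr_inv]
  rw [h1]
  refine Finset.sum_subset ?_ ?_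
  · intro T hT
    obtain ⟨S, hS, rfl⟩ := Finset.mem_image.1 hT
    exact hQ S hS
  · intro T _ hT
    have : c (tr g T) = 0 := by
      apply hc
      intro h
      exact hT (Finset.mem_image.2 ⟨_, h, tr_inv_tr g T⟩)
    rw [this, zero_mul]

theorem W_mono (c : Finset Γ → ℝ) (P Q : Finset (Finset Γ)) (hPQ : P ⊆ Q)
    (hc : ∀ S, S ∉ P → c S = 0) (x : Γ → Bool) : W c P x = W c Q x := by
  unfold W
  exact Finset.sum_subset hPQ fun S _ hS => by rw [hc S hS, zero_mul]

/-- the proportion of the points of `S` in `A` -/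
noncomputable def prp (S : Finset Γ) (A : Set Γ) : ℝ :=
  ((S : Set Γ) ∩ A).ncard / (S.card : ℝ)

theorem prp_nonneg (S : Finset Γ) (A : Set Γ) : 0 ≤ prp S A := by unfold prp; positivity

theorem prp_univ {S : Finset Γ} (hS : S ≠ ∅) : prp S univ = 1 := by
  unfold prp
  rw [inter_univ, Set.ncard_coe_finset]
  have : (0 : ℝ) < S.card := by
    exact_mod_cast Finset.card_pos.2 (Finset.nonempty_iff_ne_empty.2 hS)
  exact div_self this.ne'

theorem prp_union (S : Finset Γ) {A B : Set Γ} (h : Disjoint A B) :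
    prp S (A ∪ B) = prp S A + prp S B := by
  unfold prp
  have h1 : (S : Set Γ) ∩ (A ∪ B) = ((S : Set Γ) ∩ A) ∪ ((S : Set Γ) ∩ B) := inter_union_distrib_left _ _ _
  rw [h1, Set.ncard_union_eq (h.mono inter_subset_right inter_subset_right)
    (S.finite_toSet.inter_of_left _) (S.finite_toSet.inter_of_left _)]
  push_cast
  ring

theorem prp_le_one (S : Finset Γ) (A : Set Γ) : prp S A ≤ 1 := by
  by_cases hS : S = ∅
  · subst hS
    simp [prp]
  · have h := prp_union S (disjoint_compl_right (a := A))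
    rw [union_compl_self, prp_univ hS] at h
    have := prp_nonneg S Aᶜ
    linarith

theorem prp_tr (g : Γ) (S : Finset Γ) (A : Set Γ) :
    prp (tr g S) ((fun h => g * h) '' A) = prp S A := by
  unfold prp
  rw [card_tr]
  congr 2
  have h1 : ((tr g S : Finset Γ) : Set Γ) ∩ ((fun h => g * h) '' A) =
      (fun h => g * h) '' ((S : Set Γ) ∩ A) := by
    rw [Set.image_inter (mul_right_injective g)]
    congr 1
    unfold tr
    rw [Finset.coe_map]
    rfl
  rw [h1, Set.ncard_image_of_injective _ (mul_right_injective g)]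

/-- From an almost invariant square summable function on the finite subsets to an almost invariant
mean. -/
theorem mean_of_coeff [DecidableEq Γ] (c : Finset Γ → ℝ) (P : Finset (Finset Γ)) (hc : ∀ S, S ∉ P → c S = 0)
    (F : Finset Γ) {ε : ℝ} (hε : 0 < ε) (hN : 0 < ∑ S ∈ P.erase ∅, c S ^ 2)
    (hE : ∀ g ∈ F, ∀ Q : Finset (Finset Γ),
      ∑ S ∈ Q, (c (tr g S) - c S) ^ 2 ≤ ε ^ 2 / 4 * ∑ S ∈ P.erase ∅, c S ^ 2) :
    ∃ m : Set Γ → ℝ, (∀ A, 0 ≤ m A) ∧ m univ = 1 ∧
      (∀ A B, Disjoint A B → m (A ∪ B) = m A + m B) ∧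
      ∀ g ∈ F, ∀ A : Set Γ, |m ((fun h => g * h) '' A) - m A| ≤ ε := by
  set N := ∑ S ∈ P.erase ∅, c S ^ 2 with hNdef
  refine ⟨fun A => (∑ S ∈ P.erase ∅, c S ^ 2 * prp S A) / N, fun A => ?_, ?_, fun A B hAB => ?_,
    fun g hg A => ?_⟩
  · exact div_nonneg (Finset.sum_nonneg fun S _ => mul_nonneg (sq_nonneg _) (prp_nonneg _ _)) hN.le
  · simp only
    have : ∑ S ∈ P.erase ∅, c S ^ 2 * prp S univ = N := by
      refine Finset.sum_congr rfl fun S hS => ?_
      rw [prp_univ (Finset.ne_of_mem_erase hS), mul_one]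
    rw [this, div_self hN.ne']
  · simp only
    rw [← add_div, ← Finset.sum_add_distrib]
    congr 1
    refine Finset.sum_congr rfl fun S _ => ?_
    rw [prp_union S hAB]
    ring
  · simp only
    -- a common index set
    let Q : Finset (Finset Γ) := (P.erase ∅) ∪ (P.erase ∅).image (tr g⁻¹)
    have hQ0 : ∀ S ∈ Q, S ≠ ∅ := by
      intro S hS
      rcases Finset.mem_union.1 hS with h | h
      · exact Finset.ne_of_mem_erase h
      · obtain ⟨T, hT, rfl⟩ := Finset.mem_image.1 h
        rw [Ne, tr_eq_empty]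
        exact Finset.ne_of_mem_erase hT
    have e1 : ∑ S ∈ P.erase ∅, c S ^ 2 * prp S A = ∑ S ∈ Q, c S ^ 2 * prp S A := by
      refine Finset.sum_subset Finset.subset_union_left ?_
      intro S hS hS2
      have : c S = 0 := hc S fun h => hS2 (Finset.mem_erase.2 ⟨hQ0 S hS, h⟩)
      rw [this]; ring
    have e2 : ∑ S ∈ P.erase ∅, c S ^ 2 * prp S ((fun h => g * h) '' A) =
        ∑ S ∈ Q, c (tr g S) ^ 2 * prp S A := by
      have h1 : ∑ S ∈ P.erase ∅, c S ^ 2 * prp S ((fun h => g * h) '' A) =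
          ∑ T ∈ (P.erase ∅).image (tr g⁻¹), c (tr g T) ^ 2 * prp T A := by
        rw [Finset.sum_image fun a _ b _ h => tr_injective _ h]
        refine Finset.sum_congr rfl fun S _ => ?_
        rw [tr_tr_inv]
        congr 1
        have := prp_tr g (tr g⁻¹ S) A
        rw [tr_tr_inv] at this
        exact this
      rw [h1]
      refine Finset.sum_subset Finset.subset_union_right ?_
      intro S hS hS2
      have : c (tr g S) = 0 := by
        apply hc
        intro h
        apply hS2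
        refine Finset.mem_image.2 ⟨tr g S, Finset.mem_erase.2 ⟨?_, h⟩, tr_inv_tr g S⟩
        rw [Ne, tr_eq_empty]
        exact hQ0 S hS
      rw [this]; ring
    rw [e1, e2, ← sub_div, ← Finset.sum_sub_distrib, abs_div, abs_of_pos hN, div_le_iff₀ hN]
    have e3 : ∑ S ∈ Q, c S ^ 2 = N := by
      rw [hNdef]
      symm
      refine Finset.sum_subset Finset.subset_union_left ?_
      intro S hS hS2
      have : c S = 0 := hc S fun h => hS2 (Finset.mem_erase.2 ⟨hQ0 S hS, h⟩)
      rw [this]; ring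
    have e4 : ∑ S ∈ Q, c (tr g S) ^ 2 = N := by
      have h1 : N = ∑ T ∈ (P.erase ∅).image (tr g⁻¹), c (tr g T) ^ 2 := by
        rw [Finset.sum_image fun a _ b _ h => tr_injective _ h]
        refine Finset.sum_congr rfl fun S _ => ?_
        rw [tr_tr_inv]
      rw [h1]
      symm
      refine Finset.sum_subset Finset.subset_union_right ?_
      intro S hS hS2
      have : c (tr g S) = 0 := by
        apply hc
        intro h
        apply hS2
        refine Finset.mem_image.2 ⟨tr g S, Finset.mem_erase.2 ⟨?_, h⟩, tr_inv_tr g S⟩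
        rw [Ne, tr_eq_empty]
        exact hQ0 S hS
      rw [this]; ring
    calc |∑ S ∈ Q, (c (tr g S) ^ 2 * prp S A - c S ^ 2 * prp S A)|
        ≤ ∑ S ∈ Q, |c (tr g S) ^ 2 * prp S A - c S ^ 2 * prp S A| :=
          Finset.abs_sum_le_sum_abs _ _
      _ ≤ ∑ S ∈ Q, ((c (tr g S) - c S) ^ 2 * (2 / ε) + ε / 8 * (2 * c (tr g S) ^ 2 + 2 * c S ^ 2)) := by
          refine Finset.sum_le_sum fun S _ => ?_
          have h1 : c (tr g S) ^ 2 * prp S A - c S ^ 2 * prp S A =
              ((c (tr g S) - c S) * (c (tr g S) + c S)) * prp S A := by ring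
          rw [h1, abs_mul, abs_of_nonneg (prp_nonneg S A)]
          have h2 : |(c (tr g S) - c S) * (c (tr g S) + c S)| * prp S A ≤
              |(c (tr g S) - c S) * (c (tr g S) + c S)| := by
            have := mul_le_mul_of_nonneg_left (prp_le_one S A)
              (abs_nonneg ((c (tr g S) - c S) * (c (tr g S) + c S)))
            rwa [mul_one] at this
          refine h2.trans ?_
          set a := c (tr g S)
          set b := c S
          rw [abs_le]
          have h3 : (0 : ℝ) ≤ ((a - b) * (4 / ε) + (a + b)) ^ 2 * (ε / 8) := by positivity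
          have h4 : (0 : ℝ) ≤ ((a - b) * (4 / ε) - (a + b)) ^ 2 * (ε / 8) := by positivity
          have h5 : (a - b) ^ 2 * (4 / ε) ^ 2 * (ε / 8) = (a - b) ^ 2 * (2 / ε) := by
            field_simp
            ring
          have h6 : 2 * (a - b) * (4 / ε) * (a + b) * (ε / 8) = (a - b) * (a + b) := by
            field_simp
            ring
          have h7 : (a + b) ^ 2 ≤ 2 * a ^ 2 + 2 * b ^ 2 := by nlinarith [sq_nonneg (a - b)]
          have h8 : (a + b) ^ 2 * (ε / 8) ≤ ε / 8 * (2 * a ^ 2 + 2 * b ^ 2) := by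
            rw [mul_comm]
            exact mul_le_mul_of_nonneg_left h7 (by positivity)
          constructor
          · have e : ((a - b) * (4 / ε) + (a + b)) ^ 2 * (ε / 8) =
              (a - b) ^ 2 * (4 / ε) ^ 2 * (ε / 8) + 2 * (a - b) * (4 / ε) * (a + b) * (ε / 8) +
                (a + b) ^ 2 * (ε / 8) := by ring
            rw [e, h5, h6] at h3
            linarith
          · have e : ((a - b) * (4 / ε) - (a + b)) ^ 2 * (ε / 8) =
              (a - b) ^ 2 * (4 / ε) ^ 2 * (ε / 8) - 2 * (a - b) * (4 / ε) * (a + b) * (ε / 8) +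
                (a + b) ^ 2 * (ε / 8) := by ring
            rw [e, h5, h6] at h4
            linarith
      _ = (∑ S ∈ Q, (c (tr g S) - c S) ^ 2) * (2 / ε) + ε / 8 * (2 * N + 2 * N) := by
          rw [Finset.sum_add_distrib, ← Finset.sum_mul, ← Finset.mul_sum, Finset.sum_add_distrib,
            ← Finset.mul_sum, ← Finset.mul_sum, e3, e4]
      _ ≤ (ε ^ 2 / 4 * N) * (2 / ε) + ε / 8 * (2 * N + 2 * N) := by
          have := hE g hg Q
          gcongr
      _ = ε * N := by
          field_simp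
          ring

/-- **Spectral gap.** For a nonamenable group the Bernoulli shift has no almost invariant sets. -/
theorem gap (hΓ : ¬ IsAmenable Γ) : ∃ (F : Finset Γ) (κ : ℝ), 0 < κ ∧
    ∀ C : Set (Γ → Bool), MeasurableSet C → ∃ g ∈ F,
      κ * ((bern Γ).real C * (1 - (bern Γ).real C)) ≤ (bern Γ).real ((sh g ⁻¹' C) ∆ C) := by
  classical
  by_contra hcon
  push Not at hcon
  apply hΓ
  refine amenable_of_approx fun F ε hε => ?_
  -- reduce to small `ε`
  wlog hε1 : ε ≤ 1 generalizing ε with H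
  · obtain ⟨m, h0, h1, h2, h3⟩ := H 1 one_pos le_rfl
    exact ⟨m, h0, h1, h2, fun g hg A => (h3 g hg A).trans (not_le.1 hε1).le⟩
  set κ : ℝ := ε ^ 2 / 16 with hκ
  have hκ0 : 0 < κ := by positivity
  have hκ1 : κ ≤ 1 / 16 := by
    rw [hκ]
    have : ε ^ 2 ≤ 1 := by nlinarith
    linarith
  by_cases hF : F = ∅
  · subst hF
    exact ⟨fun A => prp {1} A, fun A => prp_nonneg _ _, prp_univ (by simp),
      fun A B h => prp_union _ h, fun g hg => absurd hg (Finset.notMem_empty g)⟩
  obtain ⟨g0, hg0⟩ := Finset.nonempty_iff_ne_empty.2 hF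
  obtain ⟨C, hC, hCF⟩ := hcon F κ hκ0
  set ν := bern Γ with hν
  set v := ν.real C * (1 - ν.real C) with hv
  have hv0 : 0 < v := by
    have h1 := hCF g0 hg0
    have h2 : 0 ≤ ν.real ((sh g0 ⁻¹' C) ∆ C) := measureReal_nonneg
    by_contra h3
    push Not at h3
    have : κ * v ≤ 0 := mul_nonpos_of_nonneg_of_nonpos hκ0.le h3
    linarith
  set δ := κ * v / 4 with hδ
  have hδ0 : 0 < δ := by positivity
  obtain ⟨D, S0, hS0, hD⟩ := Pool.Agent.R203.Bern.approx (ι := Γ) coin hC
    (ε := ENNReal.ofReal δ) (ENNReal.ofReal_pos.2 hδ0)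
  set C' : Set (Γ → Bool) := D.restrict ⁻¹' S0 with hC'
  have hC'm : MeasurableSet C' := (Finset.measurable_restrict D) hS0
  have hd : ν.real (C' ∆ C) ≤ δ := by
    rw [measureReal_def]
    exact ENNReal.toReal_le_of_le_ofReal hδ0.le hD.le
  obtain ⟨c0, hc0⟩ := exists_W D (fun y => S0.indicator (fun _ => (1 : ℝ)) y)
  let P : Finset (Finset Γ) := D.powerset
  let c : Finset Γ → ℝ := fun S => if S ∈ P then c0 S else 0
  have hcP : ∀ S, S ∉ P → c S = 0 := fun S hS => if_neg hS
  have hW : ∀ x : Γ → Bool, C'.indicator (fun _ => (1 : ℝ)) x = W c P x := by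
    intro x
    have h1 : C'.indicator (fun _ => (1 : ℝ)) x = S0.indicator (fun _ => (1 : ℝ)) (D.restrict x) := rfl
    rw [h1, hc0 x]
    unfold W
    refine Finset.sum_congr rfl fun S hS => ?_
    change c0 S * wal S x = (if S ∈ P then c0 S else 0) * wal S x
    rw [if_pos hS]
  have hPe : ∅ ∈ P := Finset.empty_mem_powerset D
  -- the integral and the square integral
  have hi1 : ν.real C' = c ∅ := by
    have h1 : ∫ x, C'.indicator (fun _ => (1 : ℝ)) x ∂ν = ν.real C' := by
      rw [integral_indicator_const _ hC'm]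
      simp
    rw [← h1]
    simp_rw [hW]
    exact integral_W c P hPe
  have hi2 : ν.real C' = ∑ S ∈ P, c S ^ 2 := by
    have h1 : ∫ x, (C'.indicator (fun _ => (1 : ℝ)) x) ^ 2 ∂ν = ν.real C' := by
      have : ∀ x, (C'.indicator (fun _ => (1 : ℝ)) x) ^ 2 = C'.indicator (fun _ => (1 : ℝ)) x := by
        intro x
        by_cases hx : x ∈ C'
        · rw [indicator_of_mem hx]; norm_num
        · rw [indicator_of_notMem hx]; norm_num
      simp_rw [this]
      rw [integral_indicator_const _ hC'm]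
      simp
    rw [← h1]
    simp_rw [hW]
    exact integral_W_sq c P
  have hNv : ∑ S ∈ P.erase ∅, c S ^ 2 = ν.real C' * (1 - ν.real C') := by
    have h1 := Finset.add_sum_erase P (fun S => c S ^ 2) hPe
    rw [← hi2, ← hi1] at h1
    linarith
  have hdiff : |ν.real C' - ν.real C| ≤ δ := by
    have := abs_measureReal_sub_le_measureReal_symmDiff hC'm.nullMeasurableSet hC.nullMeasurableSet (μ := ν)
    exact this.trans hd
  have hN1 : v / 2 ≤ ∑ S ∈ P.erase ∅, c S ^ 2 := by
    rw [hNv]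
    have ha : 0 ≤ ν.real C' := measureReal_nonneg
    have hb : ν.real C' ≤ 1 := measureReal_le_one
    have ha' : 0 ≤ ν.real C := measureReal_nonneg
    have hb' : ν.real C ≤ 1 := measureReal_le_one
    have h1 : δ ≤ v / 64 := by
      rw [hδ]
      have := mul_le_mul_of_nonneg_right hκ1 hv0.le
      linarith
    have h2 := abs_le.1 hdiff
    have h3 : |ν.real C' * (1 - ν.real C') - v| ≤ δ := by
      have e : ν.real C' * (1 - ν.real C') - v =
          (ν.real C' - ν.real C) * (1 - ν.real C - ν.real C') := by rw [hv]; ring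
      rw [e, abs_mul]
      have h4 : |1 - ν.real C - ν.real C'| ≤ 1 := by
        rw [abs_le]
        constructor <;> linarith
      calc |ν.real C' - ν.real C| * |1 - ν.real C - ν.real C'| ≤ δ * 1 :=
            mul_le_mul hdiff h4 (abs_nonneg _) hδ0.le
        _ = δ := mul_one δ
    have h5 := (abs_le.1 h3).1
    linarith
  have hN0 : 0 < ∑ S ∈ P.erase ∅, c S ^ 2 := lt_of_lt_of_le (by positivity) hN1
  refine mean_of_coeff c P hcP F hε hN0 fun g hg Q => ?_
  -- the bound for the difference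
  let Q' : Finset (Finset Γ) := Q ∪ (P ∪ P.image (tr g⁻¹))
  have hQ' : ∀ x, W c P (sh g x) - W c P x = W (fun S => c (tr g S) - c S) Q' x := by
    intro x
    rw [W_sh c P Q' g hcP (fun S hS => Finset.mem_union_right _ (Finset.mem_union_right _
      (Finset.mem_image_of_mem _ hS))) x, W_mono c P Q' (fun S hS => Finset.mem_union_right _
      (Finset.mem_union_left _ hS)) hcP x]
    unfold W
    rw [← Finset.sum_sub_distrib]
    refine Finset.sum_congr rfl fun S _ => ?_
    ring
  have h1 : ∑ S ∈ Q', (c (tr g S) - c S) ^ 2 = ν.real ((sh g ⁻¹' C') ∆ C') := by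
    have h0 : ∀ x, W (fun S => c (tr g S) - c S) Q' x =
        C'.indicator (fun _ => (1 : ℝ)) (sh g x) - C'.indicator (fun _ => (1 : ℝ)) x := by
      intro x
      rw [hW, hW, hQ']
    have h2 : ∀ x, (C'.indicator (fun _ => (1 : ℝ)) (sh g x) - C'.indicator (fun _ => (1 : ℝ)) x) ^ 2 =
        ((sh g ⁻¹' C') ∆ C').indicator (fun _ => (1 : ℝ)) x := by
      intro x
      by_cases h3 : sh g x ∈ C' <;> by_cases h4 : x ∈ C'
      · rw [indicator_of_mem h3, indicator_of_mem h4, indicator_of_notMem]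
        · norm_num
        · rintro (h | h)
          · exact h.2 h4
          · exact h.2 h3
      · rw [indicator_of_mem h3, indicator_of_notMem h4, indicator_of_mem]
        · norm_num
        · exact Or.inl ⟨h3, h4⟩
      · rw [indicator_of_notMem h3, indicator_of_mem h4, indicator_of_mem]
        · norm_num
        · exact Or.inr ⟨h4, h3⟩
      · rw [indicator_of_notMem h3, indicator_of_notMem h4, indicator_of_notMem]
        · norm_num
        · rintro (h | h)
          · exact h3 h.1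
          · exact h4 h.1
    have h5 : ∫ x, W (fun S => c (tr g S) - c S) Q' x ^ 2 ∂ν = ν.real ((sh g ⁻¹' C') ∆ C') := by
      have h6 : (fun x => W (fun S => c (tr g S) - c S) Q' x ^ 2) =
          ((sh g ⁻¹' C') ∆ C').indicator (fun _ => (1 : ℝ)) := by
        funext x
        rw [h0, h2]
      rw [h6, integral_indicator_const _ (((mp_sh g).measurable hC'm).symmDiff hC'm)]
      simp
    rw [← h5]
    exact (integral_W_sq (fun S => c (tr g S) - c S) Q').symm
  have h2 : ν.real ((sh g ⁻¹' C') ∆ C') ≤ ν.real ((sh g ⁻¹' C) ∆ C) + 2 * δ := by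
    have h3 : (sh g ⁻¹' C') ∆ C' ⊆ ((sh g ⁻¹' (C' ∆ C)) ∪ ((sh g ⁻¹' C) ∆ C)) ∪ (C' ∆ C) := by
      intro x hx
      by_cases a1 : sh g x ∈ C' <;> by_cases a2 : x ∈ C' <;> by_cases a3 : sh g x ∈ C <;>
        by_cases a4 : x ∈ C <;> simp_all [Set.mem_symmDiff]
    have h4 : ν.real (sh g ⁻¹' (C' ∆ C)) = ν.real (C' ∆ C) :=
      (mp_sh g).measureReal_preimage (hC'm.symmDiff hC).nullMeasurableSet
    calc ν.real ((sh g ⁻¹' C') ∆ C')
        ≤ ν.real (((sh g ⁻¹' (C' ∆ C)) ∪ ((sh g ⁻¹' C) ∆ C)) ∪ (C' ∆ C)) :=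
          measureReal_mono h3
      _ ≤ ν.real (sh g ⁻¹' (C' ∆ C)) + ν.real ((sh g ⁻¹' C) ∆ C) + ν.real (C' ∆ C) :=
          (measureReal_union_le _ _).trans (add_le_add_left (measureReal_union_le _ _) _)
      _ ≤ ν.real ((sh g ⁻¹' C) ∆ C) + 2 * δ := by rw [h4]; linarith
  have h3 := hCF g hg
  calc ∑ S ∈ Q, (c (tr g S) - c S) ^ 2
      ≤ ∑ S ∈ Q', (c (tr g S) - c S) ^ 2 :=
        Finset.sum_le_sum_of_subset_of_nonneg Finset.subset_union_left fun _ _ _ => sq_nonneg _
    _ ≤ ν.real ((sh g ⁻¹' C) ∆ C) + 2 * δ := by rw [h1]; exact h2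
    _ ≤ κ * v + 2 * δ := by linarith
    _ = (3 * κ) * (v / 2) := by rw [hδ]; ring
    _ ≤ (ε ^ 2 / 4) * (v / 2) := by
        have : 3 * κ ≤ ε ^ 2 / 4 := by rw [hκ]; nlinarith [sq_nonneg ε]
        exact mul_le_mul_of_nonneg_right this (by positivity)
    _ ≤ ε ^ 2 / 4 * ∑ S ∈ P.erase ∅, c S ^ 2 :=
        mul_le_mul_of_nonneg_left hN1 (by positivity)

end Pool.Agent.N255.BG
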