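import Pool.Agent.N173.BG.Stm

/-!
Project BG (helper173), part SIZE: lower bound for the size of a Bohr set (helper255).
-/

set_option autoImplicit false

namespace Pool.Agent.N255.BG

open Finset Pool.Agent.TH858 Pool.Agent.TH858.GP Pool.Agent.N173.BG

lemma nint_le_abs (a : ℝ) : CB.nint a ≤ |a| := by
  have h := round_le a 0
  unfold CB.nint
  simpa using h

lemma nn_sub_le {N : ℕ} [NeZero N] (c d : ZMod N) :
    CB.nn (c - d) ≤ |(c.val : ℝ) / N - (d.val : ℝ) / N| := by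
  have h := CB.nint_eq_nn ((c.val : ℤ) - (d.val : ℤ)) (c - d) (by push_cast; simp)
  rw [← h]
  refine (nint_le_abs _).trans (le_of_eq ?_)
  congr 1
  push_cast
  ring

lemma div_close {N q a b : ℕ} (hN : 0 < N) (hq : 0 < q) (h : q * a / N = q * b / N) :
    |(a : ℝ) / N - (b : ℝ) / N| ≤ 1 / q := by
  have hN' : (0 : ℝ) < N := by exact_mod_cast hN
  have hq' : (0 : ℝ) < q := by exact_mod_cast hq
  have a1 := Nat.div_mul_le_self (q * a) N
  have b1 := Nat.div_mul_le_self (q * b) N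
  have a2 : q * a < q * a / N * N + N := by
    have h1 := Nat.div_add_mod (q * a) N
    have h2 := Nat.mod_lt (q * a) hN
    have h3 : q * a / N * N = N * (q * a / N) := Nat.mul_comm _ _
    omega
  have b2 : q * b < q * b / N * N + N := by
    have h1 := Nat.div_add_mod (q * b) N
    have h2 := Nat.mod_lt (q * b) hN
    have h3 : q * b / N * N = N * (q * b / N) := Nat.mul_comm _ _
    omega
  rw [h] at a1 a2
  have c1 : q * a < q * b + N := by omega
  have c2 : q * b < q * a + N := by omega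
  have d1 : (q : ℝ) * a < q * b + N := by exact_mod_cast c1
  have d2 : (q : ℝ) * b < q * a + N := by exact_mod_cast c2
  rw [← sub_div, abs_div, abs_of_pos hN', div_le_div_iff₀ hN' hq']
  have h3 : |(a : ℝ) - b| * q = |(a : ℝ) * q - b * q| := by
    rw [← sub_mul, abs_mul, abs_of_pos hq']
  rw [h3, one_mul, abs_le]
  constructor <;> linarith

theorem t_SIZE : S_SIZE := by
  intro N _ Γ δ hδ hδ1
  classical
  have hN : 0 < N := Nat.pos_of_ne_zero (NeZero.ne N)
  have hN' : (0 : ℝ) < N := by exact_mod_cast hN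
  obtain ⟨q, hq⟩ : ∃ q : ℕ, q = ⌈1 / δ⌉₊ := ⟨_, rfl⟩
  have h1δ : 1 ≤ 1 / δ := by rw [le_div_iff₀ hδ]; linarith
  have hq1 : 1 / δ ≤ q := by rw [hq]; exact Nat.le_ceil _
  have hq0' : (0 : ℝ) < q := by linarith
  have hq0 : 0 < q := by exact_mod_cast hq0'
  have hq2 : (q : ℝ) ≤ 2 / δ := by
    have h := Nat.ceil_lt_add_one (show 0 ≤ 1 / δ by linarith)
    rw [← hq] at h
    have e : 2 / δ = 1 / δ + 1 / δ := by ring
    rw [e]
    linarith
  have hinv : 1 / (q : ℝ) ≤ δ := by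
    rw [div_le_iff₀ hq0']
    rw [div_le_iff₀ hδ] at hq1
    linarith
  have hinv2 : δ / 2 ≤ 1 / (q : ℝ) := by
    rw [le_div_iff₀ hq0']
    rw [le_div_iff₀ hδ] at hq2
    linarith
  obtain ⟨F, hF⟩ : ∃ F : ZMod N → (Γ → Fin q), ∀ x γ, ((F x γ : Fin q) : ℕ)
      = q * ((γ : ZMod N) * x).val / N := by
    refine ⟨fun x γ => ⟨q * ((γ : ZMod N) * x).val / N, ?_⟩, fun x γ => rfl⟩
    rw [Nat.div_lt_iff_lt_mul hN]
    exact Nat.mul_lt_mul_of_pos_left (ZMod.val_lt _) hq0
  have hcard : Fintype.card (Γ → Fin q) = q ^ Γ.card := by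
    rw [Fintype.card_fun, Fintype.card_fin, Fintype.card_coe]
  have hne : (univ : Finset (Γ → Fin q)).Nonempty := by
    have : Nonempty (Fin q) := ⟨⟨0, hq0⟩⟩
    exact univ_nonempty
  have hpow : (0 : ℝ) < (q : ℝ) ^ Γ.card := by positivity
  obtain ⟨y, -, hy⟩ := Finset.exists_le_card_fiber_of_nsmul_le_card_of_maps_to
    (s := (univ : Finset (ZMod N))) (t := (univ : Finset (Γ → Fin q))) (f := F)
    (b := (N : ℝ) / (q : ℝ) ^ Γ.card) (fun _ _ => mem_univ _) hne (by
      rw [card_univ, hcard, nsmul_eq_mul, card_univ, ZMod.card]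
      push_cast
      rw [mul_div_assoc', mul_comm, mul_div_assoc, div_self hpow.ne', mul_one])
  obtain ⟨Y, hY⟩ : ∃ Y : Finset (ZMod N), Y = univ.filter fun x => F x = y := ⟨_, rfl⟩
  rw [← hY] at hy
  have hYpos : (0 : ℝ) < Y.card := lt_of_lt_of_le (by positivity) hy
  obtain ⟨x₀, hx₀⟩ : Y.Nonempty := by
    rw [← card_pos]
    exact_mod_cast hYpos
  have hle : Y.card ≤ (univ.filter fun x : ZMod N => ∀ γ ∈ Γ, CB.nn (γ * x) ≤ δ).card := by
    refine card_le_card_of_injOn (fun x => x - x₀) ?_ ?_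
    · intro x hx
      rw [hY, mem_coe, mem_filter] at hx
      rw [hY, mem_filter] at hx₀
      rw [mem_coe, mem_filter]
      refine ⟨mem_univ _, fun γ hγ => ?_⟩
      have e1 := hF x ⟨γ, hγ⟩
      have e2 := hF x₀ ⟨γ, hγ⟩
      rw [hx.2] at e1
      rw [hx₀.2] at e2
      have e3 : q * (γ * x).val / N = q * (γ * x₀).val / N := e1.symm.trans e2
      show CB.nn (γ * (x - x₀)) ≤ δ
      rw [mul_sub]
      exact (nn_sub_le _ _).trans ((div_close hN hq0 e3).trans hinv)
    · intro a _ b _ hab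
      exact sub_left_injective hab
  have hle' : (Y.card : ℝ) ≤ ((univ.filter fun x : ZMod N => ∀ γ ∈ Γ, CB.nn (γ * x) ≤ δ).card : ℝ) := by
    exact_mod_cast hle
  refine le_trans ?_ (hy.trans hle')
  calc (N : ℝ) * (δ / 2) ^ Γ.card ≤ N * (1 / (q : ℝ)) ^ Γ.card := by
        gcongr
    _ = (N : ℝ) / (q : ℝ) ^ Γ.card := by
        rw [one_div, inv_pow, div_eq_mul_inv]

end Pool.Agent.N255.BG
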