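import Mathlib
import Pool.Agent.N255.BG.Gap
import Pool.Agent.H98R3.PF.Iso

/-!
# Unions of two Bernoulli shifts
-/

set_option autoImplicit false

namespace Pool.Agent.N255.BG

open MeasureTheory Set Filter Topology
open scoped ENNReal symmDiff

variable {Γ : Type} [Group Γ]

/-! ### freeness -/

/-- the pair `{h, g⁻¹ h}` -/
theorem sh_fix_wal {g h : Γ} [DecidableEq Γ] (hg : g ≠ 1) {x : Γ → Bool} (hx : sh g x = x) :
    wal {h, g⁻¹ * h} x = 1 := by
  unfold wal
  have hne : h ≠ g⁻¹ * h := by
    intro e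
    apply hg
    have : g⁻¹ = 1 := by
      have h2 : g⁻¹ * h = 1 * h := by rw [one_mul]; exact e.symm
      exact mul_right_cancel h2
    exact inv_eq_one.1 this
  rw [Finset.prod_pair hne]
  have : x (g⁻¹ * h) = x h := congrFun hx h
  rw [this, sg_sq]

theorem free_sh [Infinite Γ] {g : Γ} (hg : g ≠ 1) : (bern Γ) {x | sh g x = x} = 0 := by
  classical
  -- infinitely many different pairs
  let p : Γ → Finset Γ := fun h => {h, g⁻¹ * h}
  have hinf : (range p).Infinite := by
    intro hfin
    have h1 : ∀ S : Finset Γ, (p ⁻¹' {S}).Finite := by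
      intro S
      refine (S.finite_toSet).subset ?_
      intro h hh
      have : p h = S := hh
      rw [← this]
      simp [p]
    have h2 : (univ : Set Γ) = ⋃ S ∈ range p, p ⁻¹' {S} := by
      ext h
      simp
    have h3 : (univ : Set Γ).Finite := by
      rw [h2]
      exact hfin.biUnion fun S _ => h1 S
    exact infinite_univ h3
  -- the bound `1/n`
  have key : ∀ n : ℕ, 0 < n → (bern Γ).real {x | sh g x = x} ≤ 1 / n := by
    intro n hn
    obtain ⟨P, hP, hPc⟩ := hinf.exists_subset_card_eq n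
    let E : Set (Γ → Bool) := {x | ∀ S ∈ P, wal S x = 1}
    have hE : MeasurableSet E := by
      have : E = ⋂ S ∈ P, {x | wal S x = 1} := by ext x; simp [E]
      rw [this]
      exact MeasurableSet.biInter (Finset.countable_toSet P) fun S _ =>
        measurableSet_eq_fun (measurable_wal S) measurable_const
    have hsub : {x | sh g x = x} ⊆ E := by
      intro x hx S hS
      obtain ⟨h, rfl⟩ := hP hS
      exact sh_fix_wal hg hx
    have hEn : (bern Γ).real E ≤ 1 / n := by
      -- `∫ (1_E - (1/n) Σ_{S ∈ P} wal S)^2`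
      have h1 : ∫ x in E, (1 : ℝ) ∂(bern Γ) = (bern Γ).real E := by simp
      have h2 : (bern Γ).real E ≤ ∫ x, (W (fun _ => (1 : ℝ) / n) P x) ^ 2 ∂(bern Γ) := by
        rw [← h1]
        have hi : Integrable (fun x => (W (fun _ => (1 : ℝ) / n) P x) ^ 2) (bern Γ) := by
          refine Integrable.of_bound ((measurable_W _ P).pow_const 2).aestronglyMeasurable 1 ?_
          refine Eventually.of_forall fun x => ?_
          rw [Real.norm_eq_abs, abs_pow]
          have h3 : |W (fun _ => (1 : ℝ) / n) P x| ≤ 1 := by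
            unfold W
            refine (Finset.abs_sum_le_sum_abs _ _).trans ?_
            simp_rw [abs_mul, wal_abs]
            rw [Finset.sum_const, hPc, nsmul_eq_mul, mul_one, abs_of_nonneg (by positivity)]
            have : (n : ℝ) ≠ 0 := by positivity
            rw [mul_one_div_cancel this]
          exact pow_le_one₀ (abs_nonneg _) h3
        calc ∫ x in E, (1 : ℝ) ∂(bern Γ)
            ≤ ∫ x in E, (W (fun _ => (1 : ℝ) / n) P x) ^ 2 ∂(bern Γ) := by
              refine setIntegral_mono_on (integrable_const _).integrableOn hi.integrableOn hE ?_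
              intro x hx
              have : W (fun _ => (1 : ℝ) / n) P x = 1 := by
                unfold W
                have e : ∑ S ∈ P, (1 : ℝ) / n * wal S x = ∑ S ∈ P, (1 : ℝ) / n :=
                  Finset.sum_congr rfl fun S hS => by rw [hx S hS, mul_one]
                rw [e, Finset.sum_const, hPc, nsmul_eq_mul]
                have : (n : ℝ) ≠ 0 := by positivity
                rw [mul_one_div_cancel this]
              rw [this]
              norm_num
          _ ≤ ∫ x, (W (fun _ => (1 : ℝ) / n) P x) ^ 2 ∂(bern Γ) :=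
              setIntegral_le_integral hi (Eventually.of_forall fun x => sq_nonneg _)
      rw [integral_W_sq, Finset.sum_const, hPc, nsmul_eq_mul] at h2
      have : (n : ℝ) * (1 / n) ^ 2 = 1 / n := by
        have : (n : ℝ) ≠ 0 := by positivity
        field_simp
      rwa [this] at h2
    exact (measureReal_mono hsub).trans hEn
  have h0 : (bern Γ).real {x | sh g x = x} = 0 := by
    refine le_antisymm ?_ measureReal_nonneg
    refine ge_of_tendsto' (tendsto_one_div_add_atTop_nhds_zero_nat (𝕜 := ℝ)) fun n => ?_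
    have := key (n + 1) (Nat.succ_pos n)
    push_cast at this
    exact this
  rwa [measureReal_eq_zero_iff] at h0

/-! ### the space `Bool × {0,1}^Γ` -/

/-- weights `t`, `1 - t` -/
noncomputable def wt (t : unitInterval) : Measure Bool :=
  ENNReal.ofReal t • Measure.dirac true + ENNReal.ofReal (1 - t) • Measure.dirac false

instance (t : unitInterval) : IsProbabilityMeasure (wt t) := by
  refine ⟨?_⟩
  unfold wt
  rw [Measure.add_apply, Measure.smul_apply, Measure.smul_apply, measure_univ, measure_univ]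
  simp only [smul_eq_mul, mul_one]
  rw [← ENNReal.ofReal_add t.2.1 (by linarith [t.2.2])]
  simp

/-- the measure with weights `t` and `1 - t` -/
noncomputable def zm (Γ : Type) (t : unitInterval) : Measure (Bool × (Γ → Bool)) :=
  (wt t).prod (bern Γ)

instance (t : unitInterval) : IsProbabilityMeasure (zm Γ t) := by unfold zm; infer_instance

omit [Group Γ] in
theorem zm_real (t : unitInterval) {B : Set (Bool × (Γ → Bool))} (hB : MeasurableSet B) :
    (zm Γ t).real B = t * (bern Γ).real {x | (true, x) ∈ B} +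
      (1 - t) * (bern Γ).real {x | (false, x) ∈ B} := by
  have h1 : (zm Γ t) B = ENNReal.ofReal t * (bern Γ) {x | (true, x) ∈ B} +
      ENNReal.ofReal (1 - t) * (bern Γ) {x | (false, x) ∈ B} := by
    unfold zm
    rw [Measure.prod_apply hB]
    unfold wt
    rw [lintegral_add_measure, lintegral_smul_measure, lintegral_smul_measure,
      lintegral_dirac, lintegral_dirac]
    rfl
  rw [measureReal_def, h1, ENNReal.toReal_add, ENNReal.toReal_mul, ENNReal.toReal_mul,
    ENNReal.toReal_ofReal t.2.1, ENNReal.toReal_ofReal (by linarith [t.2.2])]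
  · rfl
  · exact ENNReal.mul_ne_top ENNReal.ofReal_ne_top (measure_ne_top _ _)
  · exact ENNReal.mul_ne_top ENNReal.ofReal_ne_top (measure_ne_top _ _)

/-- the action on `Bool × {0,1}^Γ` -/
def zact (g : Γ) (z : Bool × (Γ → Bool)) : Bool × (Γ → Bool) := (z.1, sh g z.2)

theorem mp_zact (t : unitInterval) (g : Γ) : MeasurePreserving (zact g) (zm Γ t) (zm Γ t) :=
  (MeasurePreserving.id (wt t)).prod (mp_sh g)

/-- every set which is almost invariant has measure close to `0`, `t`, `1 - t` or `1` -/
theorem zgap (hΓ : ¬ IsAmenable Γ) (t : unitInterval) (ht0 : 0 < (t : ℝ)) (ht1 : (t : ℝ) < 1)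
    {η : ℝ} (hη : 0 < η) : ∃ (F : Finset Γ) (δ : ℝ), 0 < δ ∧ ∀ B : Set (Bool × (Γ → Bool)),
      MeasurableSet B → (∀ g ∈ F, (zm Γ t).real ((zact g ⁻¹' B) ∆ B) ≤ δ) →
      |(zm Γ t).real B| ≤ η ∨ |(zm Γ t).real B - t| ≤ η ∨ |(zm Γ t).real B - (1 - t)| ≤ η ∨
        |(zm Γ t).real B - 1| ≤ η := by
  obtain ⟨F, κ, hκ, hF⟩ := gap hΓ
  set r : ℝ := min (t : ℝ) (1 - t) with hr
  have hr0 : 0 < r := lt_min ht0 (by linarith)
  set η' : ℝ := min η (1 / 2) with hη'
  have hη'0 : 0 < η' := lt_min hη (by norm_num)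
  refine ⟨F, κ * (η' / 2) * r, by positivity, fun B hB hBF => ?_⟩
  -- each section has measure close to `0` or `1`
  have hsec : ∀ (b : Bool), MeasurableSet {x : Γ → Bool | (b, x) ∈ B} := fun b =>
    measurable_prodMk_left hB
  have hlow : ∀ g : Γ, ∀ b : Bool, r * (bern Γ).real ((sh g ⁻¹' {x | (b, x) ∈ B}) ∆ {x | (b, x) ∈ B}) ≤
      (zm Γ t).real ((zact g ⁻¹' B) ∆ B) := by
    intro g b
    rw [zm_real t (((mp_zact t g).measurable hB).symmDiff hB)]
    have e : ∀ b : Bool, {x : Γ → Bool | (b, x) ∈ (zact g ⁻¹' B) ∆ B} =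
        (sh g ⁻¹' {x | (b, x) ∈ B}) ∆ {x | (b, x) ∈ B} := by
      intro b
      ext x
      simp [Set.mem_symmDiff, zact]
    rw [e, e]
    have n1 : 0 ≤ (bern Γ).real ((sh g ⁻¹' {x | (true, x) ∈ B}) ∆ {x | (true, x) ∈ B}) :=
      measureReal_nonneg
    have n2 : 0 ≤ (bern Γ).real ((sh g ⁻¹' {x | (false, x) ∈ B}) ∆ {x | (false, x) ∈ B}) :=
      measureReal_nonneg
    have hr1 : r ≤ t := min_le_left _ _
    have hr2 : r ≤ 1 - t := min_le_right _ _
    cases b
    · have h1 : r * (bern Γ).real ((sh g ⁻¹' {x | (false, x) ∈ B}) ∆ {x | (false, x) ∈ B}) ≤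
        (1 - t) * (bern Γ).real ((sh g ⁻¹' {x | (false, x) ∈ B}) ∆ {x | (false, x) ∈ B}) :=
        mul_le_mul_of_nonneg_right hr2 n2
      have h2 : 0 ≤ (t : ℝ) * (bern Γ).real ((sh g ⁻¹' {x | (true, x) ∈ B}) ∆ {x | (true, x) ∈ B}) :=
        mul_nonneg ht0.le n1
      linarith
    · have h1 : r * (bern Γ).real ((sh g ⁻¹' {x | (true, x) ∈ B}) ∆ {x | (true, x) ∈ B}) ≤
        t * (bern Γ).real ((sh g ⁻¹' {x | (true, x) ∈ B}) ∆ {x | (true, x) ∈ B}) :=
        mul_le_mul_of_nonneg_right hr1 n1
      have h2 : 0 ≤ (1 - (t : ℝ)) *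
          (bern Γ).real ((sh g ⁻¹' {x | (false, x) ∈ B}) ∆ {x | (false, x) ∈ B}) :=
        mul_nonneg (by linarith) n2
      linarith
  have hdic : ∀ b : Bool, (bern Γ).real {x | (b, x) ∈ B} ≤ η' ∨
      1 - η' ≤ (bern Γ).real {x | (b, x) ∈ B} := by
    intro b
    set u := (bern Γ).real {x | (b, x) ∈ B} with hu
    obtain ⟨g, hg, h1⟩ := hF _ (hsec b)
    have h2 := (hlow g b).trans (hBF g hg)
    have h3 : r * (κ * (u * (1 - u))) ≤ κ * (η' / 2) * r :=
      (mul_le_mul_of_nonneg_left h1 hr0.le).trans h2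
    have h4 : u * (1 - u) ≤ η' / 2 := by
      have h5 : (r * κ) * (u * (1 - u)) ≤ (r * κ) * (η' / 2) := by linarith
      exact le_of_mul_le_mul_left h5 (by positivity)
    by_contra hcon
    push Not at hcon
    obtain ⟨c1, c2⟩ := hcon
    have hhalf : η' ≤ 1 / 2 := min_le_right _ _
    -- `u (1 - u) > η' (1 - η') ≥ η' / 2`
    have h6 : η' / 2 < u * (1 - u) := by
      rcases le_or_gt u (1 / 2) with h | h
      · nlinarith
      · nlinarith
    linarith
  rw [zm_real t hB]
  set u1 := (bern Γ).real {x | (true, x) ∈ B}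
  set u0 := (bern Γ).real {x | (false, x) ∈ B}
  have hn1 : 0 ≤ u1 := measureReal_nonneg
  have hn0 : 0 ≤ u0 := measureReal_nonneg
  have hl1 : u1 ≤ 1 := measureReal_le_one
  have hl0 : u0 ≤ 1 := measureReal_le_one
  have hηη : η' ≤ η := min_le_left _ _
  have ht1' : 0 < 1 - (t : ℝ) := by linarith
  rcases hdic true with h1 | h1 <;> rcases hdic false with h0 | h0
  · left
    rw [abs_le]
    constructor <;> nlinarith
  · right; right; left
    rw [abs_le]
    constructor <;> nlinarith
  · right; left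
    rw [abs_le]
    constructor <;> nlinarith
  · right; right; right
    rw [abs_le]
    constructor <;> nlinarith

/-! ### transport to an arbitrary non-atomic standard probability space -/

section transport

variable {X : Type} [MeasurableSpace X] [StandardBorelSpace X] {μ : Measure X}
  [IsProbabilityMeasure μ]

omit [Group Γ] in
theorem noatom_zm [Infinite Γ] (t : unitInterval) : NullSingletonClass (zm Γ t) := by
  classical
  refine ⟨fun z => ?_⟩
  -- the coordinate functions determine a point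
  have h0 : ∀ x : Γ → Bool, (bern Γ) {x} = 0 := by
    intro y
    have key : ∀ n : ℕ, (bern Γ) {y} ≤ (2⁻¹ : ℝ≥0∞) ^ n := by
      intro n
      obtain ⟨s, hs⟩ := Infinite.exists_subset_card_eq Γ n
      have h1 : ({y} : Set (Γ → Bool)) ⊆ ((s : Set Γ).pi fun i => {y i}) := by
        rintro x rfl i _
        rfl
      refine (measure_mono h1).trans ?_
      unfold bern Pool.Agent.R203.Bern.iid
      rw [Measure.infinitePi_pi _ (fun i _ => measurableSet_singleton (y i))]
      have h2 : ∀ b : Bool, coin {b} = 2⁻¹ := by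
        intro b
        unfold coin
        rw [PMF.toMeasure_apply_singleton _ _ (measurableSet_singleton b)]
        simp
      simp_rw [h2]
      rw [Finset.prod_const, hs]
    refine le_antisymm ?_ bot_le
    refine ge_of_tendsto' (ENNReal.tendsto_pow_atTop_nhds_zero_of_lt_one ?_) key
    exact ENNReal.inv_lt_one.2 (by norm_num)
  obtain ⟨b, y⟩ := z
  unfold zm
  rw [← singleton_prod_singleton, Measure.prod_prod, h0, mul_zero]

/-- the action on `X` obtained from the union of two Bernoulli shifts of weights `t`, `1 - t` -/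
noncomputable def cact (t : unitInterval) (e : X ≃ᵐ Bool × (Γ → Bool))
    (he : MeasurePreserving e μ (zm Γ t)) : PmpAction Γ μ where
  act g x := e.symm (zact g (e x))
  one_act x := by
    simp [zact, sh_one]
  mul_act g h x := by
    simp [zact, sh_mul]
  measurePreserving g := (he.symm e).comp ((mp_zact t g).comp he)

theorem cact_free [Countable Γ] [Infinite Γ] (t : unitInterval) (e : X ≃ᵐ Bool × (Γ → Bool))
    (he : MeasurePreserving e μ (zm Γ t)) : (cact t e he).IsFree := by
  unfold PmpAction.IsFree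
  rw [ae_all_iff]
  intro g
  by_cases hg : g = 1
  · exact Eventually.of_forall fun x h => absurd hg h
  have h1 : ∀ᵐ z ∂(zm Γ t), sh g z.2 ≠ z.2 := by
    have h2 : ∀ᵐ x ∂(bern Γ), sh g x ≠ x := by
      rw [ae_iff]
      simp only [not_not]
      exact free_sh hg
    exact (Measure.quasiMeasurePreserving_snd (μ := wt t) (ν := bern Γ)).ae h2
  have h2 : ∀ᵐ x ∂μ, sh g (e x).2 ≠ (e x).2 := he.quasiMeasurePreserving.ae h1
  filter_upwards [h2] with x hx _ h3
  apply hx
  have h4 : e (e.symm (zact g (e x))) = e x := by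
    have h5 : e.symm (zact g (e x)) = x := h3
    rw [h5]
  rw [MeasurableEquiv.apply_symm_apply] at h4
  exact congrArg Prod.snd h4

omit [StandardBorelSpace X] in
/-- weak containment forces a relation between the weights -/
theorem weight_of_weak [Countable Γ] (hΓ : ¬ IsAmenable Γ) (s t : unitInterval)
    (ht0 : 0 < (t : ℝ)) (ht1 : (t : ℝ) < 1)
    (e : X ≃ᵐ Bool × (Γ → Bool)) (he : MeasurePreserving e μ (zm Γ s))
    (e' : X ≃ᵐ Bool × (Γ → Bool)) (he' : MeasurePreserving e' μ (zm Γ t))
    (h : WeaklyContained (cact s e he) (cact t e' he')) :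
    (s : ℝ) = 0 ∨ (s : ℝ) = t ∨ (s : ℝ) = 1 - t ∨ (s : ℝ) = 1 := by
  classical
  by_contra hcon
  push Not at hcon
  obtain ⟨c1, c2, c3, c4⟩ := hcon
  set η : ℝ := min (min (|(s : ℝ) - 0|) (|(s : ℝ) - t|)) (min (|(s : ℝ) - (1 - t)|) (|(s : ℝ) - 1|)) / 2
    with hη
  have hη0 : 0 < η := by
    have a1 : 0 < |(s : ℝ) - 0| := abs_pos.2 (sub_ne_zero.2 c1)
    have a2 : 0 < |(s : ℝ) - t| := abs_pos.2 (sub_ne_zero.2 c2)
    have a3 : 0 < |(s : ℝ) - (1 - t)| := abs_pos.2 (sub_ne_zero.2 c3)
    have a4 : 0 < |(s : ℝ) - 1| := abs_pos.2 (sub_ne_zero.2 c4)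
    exact half_pos (lt_min (lt_min a1 a2) (lt_min a3 a4))
  obtain ⟨F, δ, hδ, hF⟩ := zgap hΓ t ht0 ht1 hη0
  set ε : ℝ := min (δ / 4) (η / 2) with hε
  have hε0 : 0 < ε := lt_min (by positivity) (by positivity)
  -- the invariant set
  let A0 : Set (Bool × (Γ → Bool)) := {z | z.1 = true}
  have hA0 : MeasurableSet A0 := measurable_fst (measurableSet_singleton true)
  let A : Set X := e ⁻¹' A0
  have hA : MeasurableSet A := e.measurable hA0
  have hAμ : μ.real A = s := by
    rw [he.measureReal_preimage hA0.nullMeasurableSet, zm_real s hA0]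
    have e1 : {x : Γ → Bool | ((true, x) : Bool × (Γ → Bool)) ∈ A0} = univ := by ext x; simp [A0]
    have e2 : {x : Γ → Bool | ((false, x) : Bool × (Γ → Bool)) ∈ A0} = ∅ := by ext x; simp [A0]
    rw [e1, e2]
    simp
  obtain ⟨B, hB, hBF⟩ := h (insert 1 (F.image fun g => g⁻¹)) ε hε0 1 (fun _ => A) (fun _ => hA)
  have hinv : ∀ g : Γ, (cact s e he).act g '' A = A := by
    intro g
    ext x
    constructor
    · rintro ⟨y, hy, rfl⟩
      change e (e.symm (zact g (e y))) ∈ A0
      rw [MeasurableEquiv.apply_symm_apply]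
      exact hy
    · intro hx
      refine ⟨(cact s e he).act g⁻¹ x, ?_, ?_⟩
      · change e (e.symm (zact g⁻¹ (e x))) ∈ A0
        rw [MeasurableEquiv.apply_symm_apply]
        exact hx
      · rw [← (cact s e he).mul_act, mul_inv_cancel, (cact s e he).one_act]
  set b := B 0 with hb
  have hbm : MeasurableSet b := hB 0
  have k1 : |(s : ℝ) - μ.real b| < ε := by
    have h1 := hBF 1 (Finset.mem_insert_self _ _) 0 0
    rw [hinv, inter_self, hAμ] at h1
    have h2 : (cact t e' he').act 1 '' (B 0) ∩ B 0 = b := by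
      have : (cact t e' he').act 1 = id := by
        funext x
        exact (cact t e' he').one_act x
      rw [this, image_id, inter_self]
    rwa [h2] at h1
  -- the corresponding set in the model
  let B' : Set (Bool × (Γ → Bool)) := e'.symm ⁻¹' b
  have hB' : MeasurableSet B' := e'.symm.measurable hbm
  have hB'b : e' ⁻¹' B' = b := by
    ext x
    simp [B']
  have hB'μ : (zm Γ t).real B' = μ.real b := by
    rw [← he'.measureReal_preimage hB'.nullMeasurableSet, hB'b]
  have k2 : ∀ g ∈ F, (zm Γ t).real ((zact g ⁻¹' B') ∆ B') ≤ δ := by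
    intro g hg
    have h1 := hBF g⁻¹ (Finset.mem_insert_of_mem (Finset.mem_image_of_mem _ hg)) 0 0
    rw [hinv, inter_self, hAμ] at h1
    -- the image under `g⁻¹` is the preimage under `g`
    have h2 : (cact t e' he').act g⁻¹ '' b = e' ⁻¹' (zact g ⁻¹' B') := by
      ext x
      constructor
      · rintro ⟨y, hy, rfl⟩
        change e'.symm (zact g (e' (e'.symm (zact g⁻¹ (e' y))))) ∈ b
        rw [MeasurableEquiv.apply_symm_apply]
        have : zact g (zact g⁻¹ (e' y)) = e' y := by
          unfold zact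
          rw [← sh_mul, mul_inv_cancel, sh_one]
        rw [this, MeasurableEquiv.symm_apply_apply]
        exact hy
      · intro hx
        refine ⟨(cact t e' he').act g x, hx, ?_⟩
        rw [← (cact t e' he').mul_act, inv_mul_cancel, (cact t e' he').one_act]
    have hm1 : MeasurableSet (zact g ⁻¹' B') := (mp_zact t g).measurable hB'
    have h3 : μ.real ((cact t e' he').act g⁻¹ '' b ∩ b) = (zm Γ t).real ((zact g ⁻¹' B') ∩ B') := by
      rw [h2, ← hB'b, ← preimage_inter, he'.measureReal_preimage (hm1.inter hB').nullMeasurableSet]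
    have h4 : (zm Γ t).real (zact g ⁻¹' B') = μ.real b := by
      rw [(mp_zact t g).measureReal_preimage hB'.nullMeasurableSet, hB'μ]
    have h5 : (zm Γ t).real ((zact g ⁻¹' B') ∆ B') =
        ((zm Γ t).real (zact g ⁻¹' B') - (zm Γ t).real ((zact g ⁻¹' B') ∩ B')) +
        ((zm Γ t).real B' - (zm Γ t).real ((zact g ⁻¹' B') ∩ B')) := by
      have e1 : (zact g ⁻¹' B') ∆ B' = ((zact g ⁻¹' B') \ B') ∪ (B' \ (zact g ⁻¹' B')) := rfl
      rw [e1, measureReal_union disjoint_sdiff_sdiff (hB'.diff hm1)]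
      have e2 := measureReal_inter_add_sdiff (μ := zm Γ t) (s := zact g ⁻¹' B') hB'
      have e3 := measureReal_inter_add_sdiff (μ := zm Γ t) (s := B') hm1
      rw [inter_comm B'] at e3
      linarith
    rw [h5, h4, hB'μ, ← h3]
    rw [← hb] at h1
    have h6 := abs_lt.1 h1
    have h7 := abs_lt.1 k1
    have h8 : ε ≤ δ / 4 := min_le_left _ _
    linarith
  have k3 := hF B' hB' k2
  rw [hB'μ] at k3
  have h8 : ε ≤ η / 2 := min_le_right _ _
  have b1 : 2 * η ≤ |(s : ℝ) - 0| := by
    rw [hη]; linarith [min_le_left (min (|(s : ℝ) - 0|) (|(s : ℝ) - t|)) (min (|(s : ℝ) - (1 - t)|) (|(s : ℝ) - 1|)), min_le_left (|(s : ℝ) - 0|) (|(s : ℝ) - t|)]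
  have b2 : 2 * η ≤ |(s : ℝ) - t| := by
    rw [hη]; linarith [min_le_left (min (|(s : ℝ) - 0|) (|(s : ℝ) - t|)) (min (|(s : ℝ) - (1 - t)|) (|(s : ℝ) - 1|)), min_le_right (|(s : ℝ) - 0|) (|(s : ℝ) - t|)]
  have b3 : 2 * η ≤ |(s : ℝ) - (1 - t)| := by
    rw [hη]; linarith [min_le_right (min (|(s : ℝ) - 0|) (|(s : ℝ) - t|)) (min (|(s : ℝ) - (1 - t)|) (|(s : ℝ) - 1|)), min_le_left (|(s : ℝ) - (1 - t)|) (|(s : ℝ) - 1|)]
  have b4 : 2 * η ≤ |(s : ℝ) - 1| := by
    rw [hη]; linarith [min_le_right (min (|(s : ℝ) - 0|) (|(s : ℝ) - t|)) (min (|(s : ℝ) - (1 - t)|) (|(s : ℝ) - 1|)), min_le_right (|(s : ℝ) - (1 - t)|) (|(s : ℝ) - 1|)]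
  have tri : ∀ r : ℝ, |μ.real b - r| ≤ η → |(s : ℝ) - r| < 2 * η := by
    intro r hr
    have : (s : ℝ) - r = ((s : ℝ) - μ.real b) + (μ.real b - r) := by ring
    rw [this]
    have := abs_add_le ((s : ℝ) - μ.real b) (μ.real b - r)
    linarith
  rcases k3 with h9 | h9 | h9 | h9
  · have := tri 0 (by rwa [sub_zero])
    linarith
  · have := tri t h9
    linarith
  · have := tri (1 - t) h9
    linarith
  · have := tri 1 h9
    linarith

end transport

/-! ### cardinalities -/

section card

variable {X : Type} [MeasurableSpace X] [StandardBorelSpace X] {μ : Measure X}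
  [IsProbabilityMeasure μ]

omit [IsProbabilityMeasure μ] in
/-- there are at most continuum many measurable maps -/
theorem mk_measurable_maps_le : Cardinal.mk {f : X → X // Measurable f} ≤ Cardinal.continuum := by
  classical
  obtain ⟨φ, hφ⟩ := exists_measurableEmbedding_real X
  let U : ℚ → Set X := fun q => φ ⁻¹' (Iio (q : ℝ))
  have hU : ∀ q, MeasurableSet (U q) := fun q => hφ.measurable measurableSet_Iio
  let Φ : {f : X → X // Measurable f} → (ℚ → {s : Set X // MeasurableSet s}) :=
    fun f q => ⟨f.1 ⁻¹' U q, f.2 (hU q)⟩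
  have hΦ : Function.Injective Φ := by
    intro f g hfg
    apply Subtype.ext
    funext x
    apply hφ.injective
    refine le_antisymm ?_ ?_
    · by_contra hlt
      push Not at hlt
      obtain ⟨q, hq1, hq2⟩ := exists_rat_btwn hlt
      have h1 : x ∈ (Φ g q).1 := hq1
      rw [← hfg] at h1
      have h2 : φ (f.1 x) < q := h1
      linarith
    · by_contra hlt
      push Not at hlt
      obtain ⟨q, hq1, hq2⟩ := exists_rat_btwn hlt
      have h1 : x ∈ (Φ f q).1 := hq1
      rw [hfg] at h1
      have h2 : φ (g.1 x) < q := h1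
      linarith
  refine (Cardinal.mk_le_of_injective hΦ).trans ?_
  have h1 : Cardinal.mk {s : Set X // MeasurableSet s} ≤ Cardinal.continuum := by
    have h2 : (MeasurableSpace.countableGeneratingSet X).Countable :=
      MeasurableSpace.countable_countableGeneratingSet
    have h3 : Cardinal.mk (MeasurableSpace.countableGeneratingSet X) ≤ Cardinal.continuum :=
      h2.le_aleph0.trans Cardinal.aleph0_le_continuum
    have h4 := MeasurableSpace.cardinal_measurableSet_le_continuum h3
    rw [MeasurableSpace.generateFrom_countableGeneratingSet] at h4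
    exact h4
  calc Cardinal.mk (ℚ → {s : Set X // MeasurableSet s})
      = Cardinal.mk {s : Set X // MeasurableSet s} ^ Cardinal.mk ℚ := by
        rw [Cardinal.power_def]
    _ ≤ Cardinal.continuum ^ Cardinal.mk ℚ := Cardinal.power_le_power_right h1
    _ = Cardinal.continuum := by
        rw [Cardinal.mk_eq_aleph0 ℚ]
        exact Cardinal.continuum_power_aleph0

omit [IsProbabilityMeasure μ] in
theorem mk_pmpAction_le [Countable Γ] : Cardinal.mk (PmpAction Γ μ) ≤ Cardinal.continuum := by
  let Φ : PmpAction Γ μ → (Γ → {f : X → X // Measurable f}) :=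
    fun a g => ⟨a.act g, (a.measurePreserving g).measurable⟩
  have hΦ : Function.Injective Φ := by
    intro a b h
    have : a.act = b.act := by
      funext g
      have := congrFun h g
      exact congrArg Subtype.val this
    cases a
    cases b
    simp only at this
    subst this
    rfl
  refine (Cardinal.mk_le_of_injective hΦ).trans ?_
  calc Cardinal.mk (Γ → {f : X → X // Measurable f})
      = Cardinal.mk {f : X → X // Measurable f} ^ Cardinal.mk Γ := by
        rw [Cardinal.power_def]
    _ ≤ Cardinal.continuum ^ Cardinal.mk Γ := Cardinal.power_le_power_right mk_measurable_maps_le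
    _ ≤ Cardinal.continuum ^ Cardinal.aleph0 :=
        Cardinal.power_le_power_left (Cardinal.continuum_pos.ne') (Cardinal.mk_le_aleph0)
    _ = Cardinal.continuum := Cardinal.continuum_power_aleph0

omit [StandardBorelSpace X] [IsProbabilityMeasure μ] in
theorem weaklyContained_refl (a : PmpAction Γ μ) : WeaklyContained a a := by
  intro F ε hε n A hA
  refine ⟨A, hA, fun γ _ i j => ?_⟩
  rw [sub_self, abs_zero]
  exact hε

/-- **The width of the class of the free actions of a nonamenable group.** -/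
theorem main [Countable Γ] (hΓ : ¬ IsAmenable Γ) [NullSingletonClass μ] :
    (∃ 𝒜 : Set (FreeAction Γ μ), Antichain 𝒜 ∧ Cardinal.mk 𝒜 = Cardinal.continuum) ∧
    (∀ 𝒜 : Set (FreeAction Γ μ), Antichain 𝒜 → Cardinal.mk 𝒜 ≤ Cardinal.continuum) ∧
    width Γ μ = Cardinal.continuum := by
  classical
  have hinf : Infinite Γ := by
    by_contra h
    rw [not_infinite_iff_finite] at h
    exact hΓ amenable_of_finite
  have hle : ∀ 𝒜 : Set (FreeAction Γ μ), Cardinal.mk 𝒜 ≤ Cardinal.continuum := fun 𝒜 =>
    (Cardinal.mk_set_le 𝒜).trans ((Cardinal.mk_subtype_le _).trans mk_pmpAction_le)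
  have hno : ∀ t : unitInterval, NullSingletonClass (zm Γ t) := fun t => noatom_zm t
  have hex : ∀ t : unitInterval, ∃ e : X ≃ᵐ Bool × (Γ → Bool), MeasurePreserving e μ (zm Γ t) :=
    fun t => Pool.Agent.H98R3.PF.exists_mp_equiv2 μ (zm Γ t)
  choose e he using hex
  let J : Type := Ioo (0 : ℝ) (1 / 2)
  let i : J → unitInterval := fun t => ⟨t.1, t.2.1.le, by linarith [t.2.2]⟩
  let f : J → FreeAction Γ μ := fun t => ⟨cact (i t) (e (i t)) (he (i t)), cact_free _ _ _⟩
  have key : ∀ s t : J, s ≠ t → ¬ WeaklyContained (f s).1 (f t).1 := by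
    intro s t hst h
    have h1 := weight_of_weak hΓ (i s) (i t) t.2.1 (by
      change (t.1 : ℝ) < 1
      linarith [t.2.2]) (e (i s)) (he (i s)) (e (i t)) (he (i t)) h
    have hs1 := s.2.1
    have hs2 := s.2.2
    have ht1 := t.2.1
    have ht2 := t.2.2
    change (s.1 : ℝ) = 0 ∨ (s.1 : ℝ) = t.1 ∨ (s.1 : ℝ) = 1 - t.1 ∨ (s.1 : ℝ) = 1 at h1
    rcases h1 with h1 | h1 | h1 | h1
    · linarith
    · exact hst (Subtype.ext h1)
    · linarith
    · linarith
  have hf : Function.Injective f := by
    intro s t hst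
    by_contra hne
    apply key s t hne
    rw [hst]
    exact weaklyContained_refl _
  have hanti : Antichain (range f) := by
    rintro _ ⟨s, rfl⟩ _ ⟨t, rfl⟩ hne
    have hst : s ≠ t := fun h => hne (by rw [h])
    exact ⟨key s t hst, key t s hst.symm⟩
  have hcard : Cardinal.mk (range f) = Cardinal.continuum := by
    rw [Cardinal.mk_range_eq f hf]
    exact Cardinal.mk_Ioo_real (by norm_num)
  refine ⟨⟨range f, hanti, hcard⟩, fun 𝒜 _ => hle 𝒜, ?_⟩
  unfold width
  refine le_antisymm ?_ ?_
  · exact ciSup_le' fun 𝒜 => hle 𝒜.1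
  · have h1 := le_ciSup (Cardinal.bddAbove_of_small
      (s := range fun 𝒜 : {𝒜 : Set (FreeAction Γ μ) // Antichain 𝒜} => Cardinal.mk 𝒜.1))
      ⟨range f, hanti⟩
    rw [← hcard]
    exact h1

end card

end Pool.Agent.N255.BG
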